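import Mathlib
import Pool.Agent.helper19.DL.Laplace

/-! Sums over decompositions of cones as integrals over regions. -/

namespace Pool.Agent.helper14.DLG

open Finset Filter Topology MeasureTheory Matrix Pool.Agent.helper61.DL Pool.Agent.helper19.DL

/-- the functional with `b k ⬝ᵥ z = 1` and `w ⬝ᵥ z = w ⬝ᵥ y` for `w` orthogonal to the `v k` -/
def zz {κ : Type} [Fintype κ] {M : ℕ} (v b : κ → Fin M → ℝ) (y : Fin M → ℝ) : Fin M → ℝ :=
  y - ∑ k, (b k ⬝ᵥ y) • v k + ∑ k, v k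

lemma dot_zz {κ : Type} [Fintype κ] {M : ℕ} (v b : κ → Fin M → ℝ) (y p : Fin M → ℝ) :
    p ⬝ᵥ zz v b y = p ⬝ᵥ y - ∑ k, (b k ⬝ᵥ y) * (p ⬝ᵥ v k) + ∑ k, p ⬝ᵥ v k := by
  simp [zz, dotProduct_add, dotProduct_sub, dotProduct_sum, dotProduct_smul]

theorem sum_eq_integral {ℓ M : ℕ} {κ : Type} [Fintype κ] [DecidableEq κ]
    (hM : ℓ + Fintype.card κ = M) {α : Type} [Fintype α] (D : α → Fin ℓ → Fin M → ℝ)
    (v b : κ → Fin M → ℝ) (y : Fin M → ℝ)
    (hb : ∀ k k', b k ⬝ᵥ v k' = if k = k' then 1 else 0)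
    (hv : ∀ x j k, D x j ⬝ᵥ v k = 0) (hli : ∀ x, LinearIndependent ℝ (D x))
    (hy : ∀ x j, 0 < D x j ⬝ᵥ y)
    (disj : ∀ x x', x ≠ x' → ∀ t t' : Fin ℓ → ℝ, (∀ j, 0 < t j) → (∀ j, 0 < t' j) →
      ∑ j, t j • D x j ≠ ∑ j, t' j • D x' j) (R : Set (Fin M → ℝ))
    (hR1 : ∀ x (t : Fin ℓ → ℝ) (r : κ → ℝ), (∀ j, 0 < t j) → (∀ k, 0 < r k) →
      ∑ j, t j • D x j + ∑ k, r k • b k ∈ R)
    (hR2 : ∀ᵐ p : Fin M → ℝ, p ∈ R → ∃ x, ∃ (t : Fin ℓ → ℝ) (r : κ → ℝ), (∀ j, 0 ≤ t j) ∧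
      (∀ k, 0 ≤ r k) ∧ p = ∑ j, t j • D x j + ∑ k, r k • b k) :
    ∑ x, adet (Sum.elim (D x) b) / ∏ j, (D x j ⬝ᵥ y) =
      ∫ p in R, Real.exp (-(p ⬝ᵥ zz v b y)) := by
  classical
  set m := Fintype.card κ with hm
  set e : κ ≃ Fin m := Fintype.equivFin κ with he
  set v' : Fin m → Fin M → ℝ := fun k => v (e.symm k) with hv'
  set b' : Fin m → Fin M → ℝ := fun k => b (e.symm k) with hb'
  have hbb : ∀ k k', b' k ⬝ᵥ v' k' = if k = k' then 1 else 0 := by
    intro k k'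
    rw [hb', hv']
    simp only [hb]
    by_cases h : k = k'
    · rw [if_pos h, if_pos (by rw [h])]
    · rw [if_neg h, if_neg (fun h' => h (e.symm.injective h'))]
  have hvv : ∀ x j k, D x j ⬝ᵥ v' k = 0 := fun x j k => hv x j _
  have hz : zz v b y = zv v' b' y := by
    unfold zz zv
    rw [← e.symm.sum_comp, ← e.symm.sum_comp]
  have hadet : ∀ x, adet (Sum.elim (D x) b) = adet (Sum.elim (D x) b') := by
    intro x
    rw [adet_eq _ (((Equiv.refl (Fin ℓ)).sumCongr e).trans (eqv hM)), adet_eq _ (eqv hM)]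
    congr 2
    ext i j
    simp only [Matrix.of_apply, Equiv.symm_trans_apply]
    rcases (eqv hM).symm i with l | l <;> simp [hb']
  have h1 : ∀ x, adet (Sum.elim (D x) b) / ∏ j, (D x j ⬝ᵥ y) =
      ∫ k, gfun (mat hM (D x) b') (zv v' b' y) k := by
    intro x
    rw [hadet]
    exact (piece hM (D x) v' b' y hbb (hvv x) (hli x) (hy x)).2.symm
  simp only [h1]
  rw [← integral_finsetSum _ fun x _ => (piece hM (D x) v' b' y hbb (hvv x) (hli x) (hy x)).1]
  -- the union of the open cones is a.e. the region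
  have hae : ∀ᵐ k : Fin M → ℝ, ∀ x i, (k ᵥ* (mat hM (D x) b')⁻¹) i ≠ 0 := by
    rw [ae_all_iff]
    exact fun x => ae_coord _ (mat_det_ne hM (D x) v' b' hbb (hvv x) (hli x))
  set A : Set (Fin M → ℝ) := {k | ∃ x, k ∈ cone (mat hM (D x) b')} with hA
  have hAmeas : MeasurableSet A := by
    have : A = ⋃ x, cone (mat hM (D x) b') := by ext k; simp [hA]
    rw [this]
    exact MeasurableSet.iUnion fun x => measurableSet_cone _
  have hAR : A =ᵐ[volume] R := by
    filter_upwards [hae, hR2] with p hp1 hp2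
    have key : p ∈ A ↔ p ∈ R := by
      constructor
      · rintro ⟨x, hx⟩
        have h2 := rep hM (D x) b' (mat_det_ne hM (D x) v' b' hbb (hvv x) (hli x)) p
        have h3 := hR1 x (fun j => (p ᵥ* (mat hM (D x) b')⁻¹) (eqv hM (Sum.inl j)))
          (fun k => (p ᵥ* (mat hM (D x) b')⁻¹) (eqv hM (Sum.inr (e k)))) (fun j => hx _)
          (fun k => hx _)
        rw [← e.symm.sum_comp] at h3
        simp only [Equiv.apply_symm_apply] at h3
        rw [h2]
        exact h3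
      · intro hp
        obtain ⟨x, t, r, ht, hr, hpe⟩ := hp2 hp
        refine ⟨x, fun i => ?_⟩
        have hW := mat_det_ne hM (D x) v' b' hbb (hvv x) (hli x)
        have h2 := coord_of_rep hM (D x) b' hW t (fun l => r (e.symm l))
        have h3 : ∑ j, t j • D x j + ∑ l, r (e.symm l) • b' l = p := by
          rw [hpe, ← e.symm.sum_comp (fun k => r k • b k)]
        rw [h3] at h2
        have h4 := hp1 x i
        rw [h2] at h4 ⊢
        rcases hi : (eqv hM).symm i with l | l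
        · simp only [hi, Sum.elim_inl] at h4 ⊢
          exact lt_of_le_of_ne (ht l) (Ne.symm h4)
        · simp only [hi, Sum.elim_inr] at h4 ⊢
          exact lt_of_le_of_ne (hr _) (Ne.symm h4)
    exact propext key
  rw [← setIntegral_congr_set hAR, ← integral_indicator hAmeas, hz]
  refine integral_congr_ae (Filter.Eventually.of_forall fun k => ?_)
  exact sum_gfun hM D v' b' hbb hvv hli disj _ k

end Pool.Agent.helper14.DLG
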