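import Mathlib

/-! Continuity of Laplace integrals over polyhedral cones. -/

namespace Pool.Agent.helper14.DLG

open Finset Filter Topology MeasureTheory

lemma integrable_exp_neg_abs (c : ℝ) (hc : 0 < c) :
    Integrable (fun t : ℝ => Real.exp (-(c * |t|))) := by
  have h1 : IntegrableOn (fun t : ℝ => Real.exp (-(c * |t|))) (Set.Ioi 0) := by
    refine (exp_neg_integrableOn_Ioi 0 hc).congr_fun (fun t ht => ?_) measurableSet_Ioi
    rw [abs_of_pos (Set.mem_Ioi.1 ht)]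
    simp only [neg_mul]
  have h2 : IntegrableOn (fun t : ℝ => Real.exp (-(c * |t|))) (Set.Iio 0) := by
    have h3 := h1.comp_neg
    simp only [Set.neg_Ioi, neg_zero, abs_neg] at h3
    exact h3
  have h4 : IntegrableOn (fun t : ℝ => Real.exp (-(c * |t|))) (Set.Iic 0) :=
    (integrableOn_Iic_iff_integrableOn_Iio (by finiteness)).2 h2
  have h5 := h4.union h1
  rw [Set.Iic_union_Ioi, integrableOn_univ] at h5
  exact h5

lemma integrable_exp_neg_sum (M : ℕ) (c : ℝ) (hc : 0 < c) :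
    Integrable (fun x : Fin M → ℝ => Real.exp (-(c * ∑ i, |x i|))) := by
  have h1 : (fun x : Fin M → ℝ => Real.exp (-(c * ∑ i, |x i|))) =
      fun x => ∏ i, Real.exp (-(c * |x i|)) := by
    funext x
    rw [← Real.exp_sum, Finset.sum_neg_distrib, Finset.mul_sum]
  rw [h1]
  exact Integrable.fintype_prod (fun i => integrable_exp_neg_abs c hc)

/-- a hyperplane is a null set -/
lemma null_hyper {M : ℕ} (g : Fin M → ℝ) (hg : g ≠ 0) :
    (volume : Measure (Fin M → ℝ)) {x | g ⬝ᵥ x = 0} = 0 := by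
  set φ : (Fin M → ℝ) →ₗ[ℝ] ℝ := ∑ i, g i • LinearMap.proj i with hφ
  have hφx : ∀ x, φ x = g ⬝ᵥ x := by
    intro x
    simp [hφ, dotProduct]
  have h1 : ({x | g ⬝ᵥ x = 0} : Set (Fin M → ℝ)) = (LinearMap.ker φ : Set (Fin M → ℝ)) := by
    ext x
    simp [hφx]
  rw [h1]
  refine Measure.addHaar_submodule _ _ ?_
  intro htop
  apply hg
  funext i
  have h2 : φ (Pi.single i 1) = 0 := by
    have : Pi.single i 1 ∈ LinearMap.ker φ := by rw [htop]; trivial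
    exact this
  rw [hφx] at h2
  simpa using h2

lemma region_measurable {M : ℕ} {U : Type} [Fintype U] (g : U → Fin M → ℝ) :
    MeasurableSet {x : Fin M → ℝ | ∀ u, 0 ≤ g u ⬝ᵥ x} := by
  have : {x : Fin M → ℝ | ∀ u, 0 ≤ g u ⬝ᵥ x} = ⋂ u, {x | 0 ≤ g u ⬝ᵥ x} := by
    ext x; simp
  rw [this]
  refine MeasurableSet.iInter fun u => ?_
  refine measurableSet_le measurable_const ?_
  unfold dotProduct
  fun_prop

theorem tendsto_region {M : ℕ} {U : Type} [Fintype U] (g : ℝ → U → Fin M → ℝ)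
    (y : ℝ → Fin M → ℝ) (θ₀ : ℝ) (hθ₀ : 0 < θ₀)
    (cont : ∀ u i, Tendsto (fun θ => g θ u i) (𝓝[>] 0) (𝓝 (g 0 u i)))
    (conty : ∀ i, Tendsto (fun θ => y θ i) (𝓝[>] 0) (𝓝 (y 0 i)))
    (ne : ∀ u, g 0 u ≠ 0) (c : ℝ) (hc : 0 < c)
    (dom : ∀ θ, 0 ≤ θ → θ ≤ θ₀ → ∀ x, (∀ u, 0 ≤ g θ u ⬝ᵥ x) → c * ∑ i, |x i| ≤ x ⬝ᵥ y θ) :
    Tendsto (fun θ => ∫ x in {x | ∀ u, 0 ≤ g θ u ⬝ᵥ x}, Real.exp (-(x ⬝ᵥ y θ))) (𝓝[>] 0)
      (𝓝 (∫ x in {x | ∀ u, 0 ≤ g 0 u ⬝ᵥ x}, Real.exp (-(x ⬝ᵥ y 0)))) := by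
  classical
  have hmeas : ∀ θ, Measurable fun x : Fin M → ℝ => Real.exp (-(x ⬝ᵥ y θ)) := by
    intro θ
    unfold dotProduct
    fun_prop
  simp_rw [← integral_indicator (region_measurable _)]
  have hθ : ∀ᶠ θ in 𝓝[>] (0 : ℝ), 0 ≤ θ ∧ θ ≤ θ₀ := by
    have h1 : ∀ᶠ θ in 𝓝[>] (0 : ℝ), θ ∈ Set.Ioi (0 : ℝ) := self_mem_nhdsWithin
    have h2 : ∀ᶠ θ in 𝓝[>] (0 : ℝ), θ < θ₀ :=
      (eventually_lt_nhds hθ₀).filter_mono nhdsWithin_le_nhds
    filter_upwards [h1, h2] with θ h1 h2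
    exact ⟨le_of_lt h1, h2.le⟩
  refine tendsto_integral_filter_of_dominated_convergence
    (fun x => Real.exp (-(c * ∑ i, |x i|))) ?_ ?_ (integrable_exp_neg_sum M c hc) ?_
  · exact Eventually.of_forall fun θ =>
      ((hmeas θ).indicator (region_measurable _)).aestronglyMeasurable
  · filter_upwards [hθ] with θ hθ
    refine Eventually.of_forall fun x => ?_
    by_cases hx : x ∈ {x | ∀ u, 0 ≤ g θ u ⬝ᵥ x}
    · rw [Set.indicator_of_mem hx, Real.norm_eq_abs, abs_of_pos (Real.exp_pos _)]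
      exact Real.exp_le_exp.2 (neg_le_neg (dom θ hθ.1 hθ.2 x hx))
    · rw [Set.indicator_of_notMem hx, norm_zero]
      exact (Real.exp_pos _).le
  · -- almost everywhere convergence
    have h1 : ∀ᵐ x : Fin M → ℝ, ∀ u, g 0 u ⬝ᵥ x ≠ 0 := by
      rw [ae_all_iff]
      intro u
      rw [ae_iff]
      simpa using null_hyper (g 0 u) (ne u)
    filter_upwards [h1] with x hx
    have hlim : ∀ u, Tendsto (fun θ => g θ u ⬝ᵥ x) (𝓝[>] 0) (𝓝 (g 0 u ⬝ᵥ x)) := by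
      intro u
      unfold dotProduct
      exact tendsto_finsetSum _ fun i _ => (cont u i).mul_const _
    have hlimy : Tendsto (fun θ => Real.exp (-(x ⬝ᵥ y θ))) (𝓝[>] 0)
        (𝓝 (Real.exp (-(x ⬝ᵥ y 0)))) := by
      refine (Real.continuous_exp.tendsto _).comp (Tendsto.neg ?_)
      unfold dotProduct
      exact tendsto_finsetSum _ fun i _ => (conty i).const_mul _
    have hev : ∀ᶠ θ in 𝓝[>] (0 : ℝ), (x ∈ {x | ∀ u, 0 ≤ g θ u ⬝ᵥ x} ↔
        x ∈ {x | ∀ u, 0 ≤ g 0 u ⬝ᵥ x}) := by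
      have h2 : ∀ᶠ θ in 𝓝[>] (0 : ℝ), ∀ u, (0 ≤ g θ u ⬝ᵥ x ↔ 0 ≤ g 0 u ⬝ᵥ x) := by
        rw [eventually_all]
        intro u
        rcases lt_or_gt_of_ne (hx u) with h | h
        · filter_upwards [(hlim u).eventually (eventually_lt_nhds h)] with θ hθ'
          constructor
          · intro h3; exact absurd h3 (not_le.2 hθ')
          · intro h3; exact absurd h3 (not_le.2 h)
        · filter_upwards [(hlim u).eventually (eventually_gt_nhds h)] with θ hθ'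
          exact ⟨fun _ => h.le, fun _ => le_of_lt hθ'⟩
      filter_upwards [h2] with θ h2
      exact forall_congr' h2
    by_cases hx0 : x ∈ {x | ∀ u, 0 ≤ g 0 u ⬝ᵥ x}
    · rw [Set.indicator_of_mem hx0]
      refine hlimy.congr' ?_
      filter_upwards [hev] with θ hev
      have hx1 : x ∈ {x | ∀ u, 0 ≤ g θ u ⬝ᵥ x} := hev.2 hx0
      rw [Set.indicator_of_mem hx1]
    · rw [Set.indicator_of_notMem hx0]
      refine tendsto_nhds_of_eventually_eq ?_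
      filter_upwards [hev] with θ hev
      have hx1 : x ∉ {x | ∀ u, 0 ≤ g θ u ⬝ᵥ x} := fun h => hx0 (hev.1 h)
      rw [Set.indicator_of_notMem hx1]

end Pool.Agent.helper14.DLG
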