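import Mathlib
import Pool.Agent.helper61.DL.Defs2
import Pool.Agent.helper14.DLG.Region
import Pool.Agent.helper14.DLG.Integral

/-! The vertex sums of a degenerate polyhedron as Laplace integrals: the limit `θ → 0`. -/

namespace Pool.Agent.helper14.DLG

open Finset Filter Topology MeasureTheory Matrix Pool.Agent.helper61.DL

variable {n : ℕ} {ι : Type} [Fintype ι] [DecidableEq ι]

/-- homogenised exponents at the height `1 - θ ω` -/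
noncomputable def HH (V : ι → Fin n → ℝ) (ω : ι → ℝ) (θ : ℝ) (u : ι) : Fin (n + 1) → ℝ :=
  hv (1 - θ * ω u) (V u)

/-- the vector `(1, 0)` -/
def E0 (n : ℕ) : Fin (n + 1) → ℝ := Fin.cons 1 0

/-- lifted dual vector -/
def bb (d : ι → Fin n → ℝ) (v : ι) : Fin (n + 1) → ℝ := Fin.cons 0 (d v)

/-- constraint functional -/
noncomputable def gg (V : ι → Fin n → ℝ) (ω : ι → ℝ) (T : Finset ι) (d : ι → Fin n → ℝ) (θ : ℝ)
    (u : ι) : Fin (n + 1) → ℝ := HH V ω θ u - ∑ v ∈ T, (d v ⬝ᵥ V u) • HH V ω θ v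

omit [Fintype ι] [DecidableEq ι] in
lemma HH_eq (V : ι → Fin n → ℝ) (ω : ι → ℝ) (θ : ℝ) (u : ι) :
    HH V ω θ u = HH V ω 0 u + (θ * ω u) • E0 n := by
  funext i
  refine Fin.cases ?_ (fun j => ?_) i
  · simp [HH, hv, E0]; ring
  · simp [HH, hv, E0]

omit [Fintype ι] [DecidableEq ι] in
lemma gg_eq (V : ι → Fin n → ℝ) (ω : ι → ℝ) (T : Finset ι) (d : ι → Fin n → ℝ) (θ : ℝ)
    (u : ι) : gg V ω T d θ u = gg V ω T d 0 u +
      (θ * (ω u - ∑ v ∈ T, (d v ⬝ᵥ V u) * ω v)) • E0 n := by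
  unfold gg
  rw [HH_eq V ω θ u, Finset.sum_congr rfl fun v _ => by rw [HH_eq V ω θ v, smul_add, smul_smul],
    Finset.sum_add_distrib, ← Finset.sum_smul, mul_sub, sub_smul, Finset.mul_sum,
    Finset.sum_congr rfl fun v _ => (by ring : (d v ⬝ᵥ V u) * (θ * ω v) =
      θ * ((d v ⬝ᵥ V u) * ω v))]
  abel

omit [Fintype ι] [DecidableEq ι] in
lemma cons_dot (a c : ℝ) (x y : Fin n → ℝ) :
    (Fin.cons a x : Fin (n + 1) → ℝ) ⬝ᵥ (Fin.cons c y : Fin (n + 1) → ℝ) = a * c + x ⬝ᵥ y := by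
  simp [dotProduct, Fin.sum_univ_succ]

omit [Fintype ι] [DecidableEq ι] in
lemma E0_dot (x : Fin (n + 1) → ℝ) : E0 n ⬝ᵥ x = x 0 := by
  unfold E0
  rw [dotProduct, Fin.sum_univ_succ]
  simp

omit [Fintype ι] [DecidableEq ι] in
lemma dot_E0 (x : Fin (n + 1) → ℝ) : x ⬝ᵥ E0 n = x 0 := by
  rw [dotProduct_comm, E0_dot]

omit [Fintype ι] [DecidableEq ι] in
lemma bb_dot (V : ι → Fin n → ℝ) (ω : ι → ℝ) (θ : ℝ) (d : ι → Fin n → ℝ) (v u : ι) :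
    bb d v ⬝ᵥ HH V ω θ u = d v ⬝ᵥ V u := by
  unfold bb HH hv
  rw [cons_dot]; ring

omit [Fintype ι] [DecidableEq ι] in
lemma gg_dot (V : ι → Fin n → ℝ) (ω : ι → ℝ) (T : Finset ι) (d : ι → Fin n → ℝ) (θ : ℝ)
    (u : ι) (x : Fin (n + 1) → ℝ) : gg V ω T d θ u ⬝ᵥ x =
      x ⬝ᵥ HH V ω θ u - ∑ v ∈ T, (d v ⬝ᵥ V u) * (x ⬝ᵥ HH V ω θ v) := by
  unfold gg
  rw [sub_dotProduct, sum_dotProduct, dotProduct_comm x]
  congr 1
  refine Finset.sum_congr rfl fun v _ => ?_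
  rw [smul_dotProduct, smul_eq_mul, dotProduct_comm x]

/-- index set of the constraints -/
abbrev Idx (V : ι → Fin n → ℝ) (ω : ι → ℝ) (T : Finset ι) (d : ι → Fin n → ℝ) : Type :=
  {v // v ∈ T} ⊕ {u // gg V ω T d 0 u ≠ 0} ⊕ Unit

/-- the constraints -/
noncomputable def GG (V : ι → Fin n → ℝ) (ω : ι → ℝ) (T : Finset ι) (d : ι → Fin n → ℝ) (θ : ℝ) :
    Idx V ω T d → Fin (n + 1) → ℝ :=
  Sum.elim (fun v => HH V ω θ v) (Sum.elim (fun u => gg V ω T d θ u) fun _ => E0 n)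

/-- projection to the dual cone -/
noncomputable def pk (V : ι → Fin n → ℝ) (ω : ι → ℝ) (T : Finset ι) (d : ι → Fin n → ℝ) (θ : ℝ)
    (x : Fin (n + 1) → ℝ) : Fin (n + 1) → ℝ := x - ∑ v ∈ T, (x ⬝ᵥ HH V ω θ v) • bb d v

omit [Fintype ι] [DecidableEq ι] in
lemma pk_dot (V : ι → Fin n → ℝ) (ω : ι → ℝ) (T : Finset ι) (d : ι → Fin n → ℝ) (θ : ℝ)
    (x : Fin (n + 1) → ℝ) (u : ι) : pk V ω T d θ x ⬝ᵥ HH V ω θ u = gg V ω T d θ u ⬝ᵥ x := by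
  unfold pk gg
  rw [sub_dotProduct, sub_dotProduct, sum_dotProduct, sum_dotProduct, dotProduct_comm x]
  congr 1
  refine Finset.sum_congr rfl fun v _ => ?_
  rw [smul_dotProduct, smul_dotProduct, bb_dot, smul_eq_mul, smul_eq_mul, dotProduct_comm x,
    mul_comm]

omit [Fintype ι] in
lemma gg_T (V : ι → Fin n → ℝ) (ω : ι → ℝ) (T : Finset ι) (d : ι → Fin n → ℝ)
    (hd : ∀ u ∈ T, ∀ v ∈ T, d u ⬝ᵥ V v = if u = v then 1 else 0) (θ : ℝ) (u : ι) (hu : u ∈ T) :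
    gg V ω T d θ u = 0 := by
  unfold gg
  rw [Finset.sum_eq_single u]
  · rw [hd u hu u hu, if_pos rfl, one_smul, sub_self]
  · intro v hv hne
    rw [hd v hv u hu, if_neg hne, zero_smul]
  · intro h; exact absurd hu h

omit [Fintype ι] [DecidableEq ι] in
lemma pk_zero (V : ι → Fin n → ℝ) (ω : ι → ℝ) (T : Finset ι) (d : ι → Fin n → ℝ) (θ : ℝ)
    (x : Fin (n + 1) → ℝ) : pk V ω T d θ x 0 = x 0 := by
  unfold pk bb
  simp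

/-- what is needed of a decomposition -/
def StarAt (V : ι → Fin n → ℝ) (ω : ι → ℝ) (𝒱 : Finset (Finset ι)) (kkθ : Finset ι → Fin n → ℝ)
    (dd : Finset ι → ι → Fin n → ℝ) (T : Finset ι) (ℓ : ℕ) (s : ℝ) (ξ : Fin n → ℝ) (θ : ℝ) :
    Prop :=
  ∃ (β : Type) (_ : Fintype β) (D : β → Fin ℓ → Fin (n + 1) → ℝ),
    (∀ x j, (∀ u, 0 ≤ D x j ⬝ᵥ HH V ω θ u) ∧ (∀ v ∈ T, D x j ⬝ᵥ HH V ω θ v = 0) ∧
      (∀ i, 0 ≤ D x j i) ∧ D x j ≠ 0) ∧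
    (∀ x, LinearIndependent ℝ (D x)) ∧
    (∀ k : Fin (n + 1) → ℝ, (∀ u, 0 ≤ k ⬝ᵥ HH V ω θ u) → (∀ v ∈ T, k ⬝ᵥ HH V ω θ v = 0) →
      0 < k 0 → ∃ x, ∃ t : Fin ℓ → ℝ, (∀ j, 0 ≤ t j) ∧ k = ∑ j, t j • D x j) ∧
    (∀ x x', x ≠ x' → ∀ t t' : Fin ℓ → ℝ, (∀ j, 0 < t j) → (∀ j, 0 < t' j) →
      ∑ j, t j • D x j ≠ ∑ j, t' j • D x' j) ∧
    ∀ b : {v // v ∈ T} → Fin (n + 1) → ℝ,
      (∀ u v : {v // v ∈ T}, b u ⬝ᵥ HH V ω θ v = if u = v then 1 else 0) →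
      ∑ x, adet (Sum.elim (D x) b) / ∏ j, (D x j ⬝ᵥ (Fin.cons s ξ : Fin (n + 1) → ℝ)) =
        RS V 𝒱 kkθ dd s ξ T

/-- the region of the integral -/
def Reg (V : ι → Fin n → ℝ) (ω : ι → ℝ) (T : Finset ι) (d : ι → Fin n → ℝ) (θ : ℝ) :
    Set (Fin (n + 1) → ℝ) := {x | ∀ w, 0 ≤ GG V ω T d θ w ⬝ᵥ x}

/-- the exponent of the integral -/
noncomputable def yy (V : ι → Fin n → ℝ) (ω : ι → ℝ) (T : Finset ι) (d : ι → Fin n → ℝ) (s : ℝ)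
    (ξ : Fin n → ℝ) (θ : ℝ) : Fin (n + 1) → ℝ :=
  zz (fun v : {v // v ∈ T} => HH V ω θ v) (fun v : {v // v ∈ T} => bb d v) (Fin.cons s ξ)

omit [Fintype ι] [DecidableEq ι] in
lemma bb_E0 (d : ι → Fin n → ℝ) (v : ι) : bb d v ⬝ᵥ E0 n = 0 := by
  rw [dot_E0]; rfl

omit [Fintype ι] [DecidableEq ι] in
/-- sum over a subtype -/
lemma sum_T {E : Type} [AddCommMonoid E] (T : Finset ι) (f : ι → E) :
    ∑ v : {v // v ∈ T}, f v = ∑ v ∈ T, f v := Finset.sum_coe_sort T f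

omit [Fintype ι] [DecidableEq ι] in
lemma dot_yy (V : ι → Fin n → ℝ) (ω : ι → ℝ) (T : Finset ι) (d : ι → Fin n → ℝ) (s : ℝ)
    (ξ : Fin n → ℝ) (θ : ℝ) (x : Fin (n + 1) → ℝ) :
    x ⬝ᵥ yy V ω T d s ξ θ = pk V ω T d θ x ⬝ᵥ (Fin.cons s ξ : Fin (n + 1) → ℝ) +
      ∑ v ∈ T, x ⬝ᵥ HH V ω θ v := by
  unfold yy
  rw [dot_zz, sum_T T (fun v => (bb d v ⬝ᵥ (Fin.cons s ξ : Fin (n + 1) → ℝ)) *
    (x ⬝ᵥ HH V ω θ v)), sum_T T (fun v => x ⬝ᵥ HH V ω θ v)]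
  unfold pk
  rw [sub_dotProduct, sum_dotProduct]
  congr 2
  refine Finset.sum_congr rfl fun v _ => ?_
  rw [smul_dotProduct, smul_eq_mul, mul_comm]

section Main

variable {V : ι → Fin n → ℝ} {ω : ι → ℝ} {𝒱 : Finset (Finset ι)}
  {kk kk' : Finset ι → Fin n → ℝ} {dd : Finset ι → ι → Fin n → ℝ}

/-- the constraints which are trivial in the limit are implied -/
lemma mu_nonneg (hP : Poly V (fun i => 1 - 1 * ω i) 𝒱 kk dd) {T Δ₀ : Finset ι} (hΔ₀ : Δ₀ ∈ 𝒱)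
    (hT : T ⊆ Δ₀) (u : ι) (hu : gg V ω T (dd Δ₀) 0 u = 0) :
    0 ≤ ω u - ∑ v ∈ T, (dd Δ₀ v ⬝ᵥ V u) * ω v := by
  have h1 := gg_eq V ω T (dd Δ₀) 1 u
  rw [hu, zero_add, one_mul] at h1
  set x : Fin (n + 1) → ℝ := Fin.cons 1 (kk Δ₀) with hx
  have hxH : ∀ v, x ⬝ᵥ HH V ω 1 v = kk Δ₀ ⬝ᵥ V v - (1 - 1 * ω v) := by
    intro v
    rw [hx, HH, hv, cons_dot]; ring
  have h2 : gg V ω T (dd Δ₀) 1 u ⬝ᵥ x = kk Δ₀ ⬝ᵥ V u - (1 - 1 * ω u) := by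
    unfold gg
    rw [sub_dotProduct, sum_dotProduct, dotProduct_comm _ x, hxH, Finset.sum_eq_zero, sub_zero]
    intro v hv
    rw [smul_dotProduct, dotProduct_comm _ x, hxH, (hP.kk_eq Δ₀ hΔ₀ v).1 (hT hv), sub_self,
      smul_zero]
  rw [h1, smul_dotProduct, E0_dot, smul_eq_mul] at h2
  have h3 : x 0 = 1 := rfl
  rw [h3, mul_one] at h2
  rw [h2]
  have := hP.kk_le Δ₀ hΔ₀ u
  linarith

lemma all_constraints (hP : Poly V (fun i => 1 - 1 * ω i) 𝒱 kk dd) {T Δ₀ : Finset ι}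
    (hΔ₀ : Δ₀ ∈ 𝒱) (hT : T ⊆ Δ₀) {θ : ℝ} (hθ : 0 ≤ θ) {x : Fin (n + 1) → ℝ}
    (hx : x ∈ Reg V ω T (dd Δ₀) θ) (u : ι) : 0 ≤ pk V ω T (dd Δ₀) θ x ⬝ᵥ HH V ω θ u := by
  rw [pk_dot]
  by_cases hu : gg V ω T (dd Δ₀) 0 u = 0
  · rw [gg_eq, hu, zero_add, smul_dotProduct, E0_dot, smul_eq_mul]
    have h1 := hx (Sum.inr (Sum.inr ()))
    have h2 : 0 ≤ x 0 := by rw [← E0_dot x]; exact h1
    exact mul_nonneg (mul_nonneg hθ (mu_nonneg hP hΔ₀ hT u hu)) h2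
  · exact hx (Sum.inr (Sum.inl ⟨u, hu⟩))

/-- decompositions of the dual cone give the integral over the region -/
lemma sum_eq_reg (hP1 : Poly V (fun i => 1 - 1 * ω i) 𝒱 kk dd) {T Δ₀ : Finset ι}
    (hΔ₀ : Δ₀ ∈ 𝒱) (hT : T ⊆ Δ₀) {ℓ : ℕ} (hℓ : ℓ + T.card = n + 1) {s : ℝ} {ξ : Fin n → ℝ}
    (hs : 0 < s) (hξ : ∀ i, 0 < ξ i) {θ : ℝ} (hθ : 0 ≤ θ) {β : Type} [Fintype β]
    (D : β → Fin ℓ → Fin (n + 1) → ℝ)
    (hD1 : ∀ x j, (∀ u, 0 ≤ D x j ⬝ᵥ HH V ω θ u) ∧ (∀ v ∈ T, D x j ⬝ᵥ HH V ω θ v = 0) ∧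
      (∀ i, 0 ≤ D x j i) ∧ D x j ≠ 0)
    (hD2 : ∀ x, LinearIndependent ℝ (D x))
    (hD3 : ∀ k : Fin (n + 1) → ℝ, (∀ u, 0 ≤ k ⬝ᵥ HH V ω θ u) →
      (∀ v ∈ T, k ⬝ᵥ HH V ω θ v = 0) → 0 < k 0 →
      ∃ x, ∃ t : Fin ℓ → ℝ, (∀ j, 0 ≤ t j) ∧ k = ∑ j, t j • D x j)
    (hD4 : ∀ x x', x ≠ x' → ∀ t t' : Fin ℓ → ℝ, (∀ j, 0 < t j) → (∀ j, 0 < t' j) →
      ∑ j, t j • D x j ≠ ∑ j, t' j • D x' j) :
    ∑ x, adet (Sum.elim (D x) (fun v : {v // v ∈ T} => bb (dd Δ₀) v)) /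
        ∏ j, (D x j ⬝ᵥ (Fin.cons s ξ : Fin (n + 1) → ℝ)) =
      ∫ x in Reg V ω T (dd Δ₀) θ, Real.exp (-(x ⬝ᵥ yy V ω T (dd Δ₀) s ξ θ)) := by
  classical
  have hb : ∀ u v : {v // v ∈ T}, bb (dd Δ₀) u ⬝ᵥ HH V ω θ v = if u = v then 1 else 0 := by
    intro u v
    rw [bb_dot, hP1.dual Δ₀ hΔ₀ u (hT u.2) v (hT v.2)]
    by_cases h : u = v
    · rw [if_pos h, if_pos (congrArg Subtype.val h)]
    · rw [if_neg h, if_neg (fun h' => h (Subtype.ext h'))]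
  have hy0 : ∀ i, 0 < (Fin.cons s ξ : Fin (n + 1) → ℝ) i := by
    intro i
    refine Fin.cases ?_ (fun j => ?_) i
    · simpa using hs
    · simpa using hξ j
  refine sum_eq_integral (by rw [Fintype.card_coe]; exact hℓ) D (fun v : {v // v ∈ T} =>
    HH V ω θ v) (fun v : {v // v ∈ T} => bb (dd Δ₀) v) (Fin.cons s ξ) hb
    (fun x j k => (hD1 x j).2.1 k k.2) hD2 (fun x j => ?_) hD4 (Reg V ω T (dd Δ₀) θ) ?_ ?_
  · obtain ⟨i, hi⟩ := Function.ne_iff.1 (hD1 x j).2.2.2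
    refine Finset.sum_pos' (fun i _ => mul_nonneg ((hD1 x j).2.2.1 i) (hy0 i).le)
      ⟨i, Finset.mem_univ _, mul_pos (lt_of_le_of_ne ((hD1 x j).2.2.1 i) (Ne.symm hi)) (hy0 i)⟩
  · -- open cones are in the region
    intro x t r ht hr w
    have hDH : ∀ u, (∑ j, t j • D x j) ⬝ᵥ HH V ω θ u ≥ 0 := by
      intro u
      rw [sum_dotProduct]
      refine Finset.sum_nonneg fun j _ => ?_
      rw [smul_dotProduct, smul_eq_mul]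
      exact mul_nonneg (ht j).le ((hD1 x j).1 u)
    have hDT : ∀ v ∈ T, (∑ j, t j • D x j) ⬝ᵥ HH V ω θ v = 0 := by
      intro v hv
      rw [sum_dotProduct]
      refine Finset.sum_eq_zero fun j _ => ?_
      rw [smul_dotProduct, (hD1 x j).2.1 v hv, smul_zero]
    have hbH : ∀ u, (∑ k : {v // v ∈ T}, r k • bb (dd Δ₀) k) ⬝ᵥ HH V ω θ u =
        ∑ k : {v // v ∈ T}, r k * (dd Δ₀ k ⬝ᵥ V u) := by
      intro u
      rw [sum_dotProduct]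
      refine Finset.sum_congr rfl fun k _ => ?_
      rw [smul_dotProduct, bb_dot, smul_eq_mul]
    rcases w with v | u | _
    · have h1 : (∑ j, t j • D x j + ∑ k : {v // v ∈ T}, r k • bb (dd Δ₀) k) ⬝ᵥ HH V ω θ v =
          r v := by
        rw [add_dotProduct, hDT v v.2, zero_add, sum_dotProduct, Finset.sum_eq_single v]
        · rw [smul_dotProduct, hb, if_pos rfl, smul_eq_mul, mul_one]
        · intro k _ hk
          rw [smul_dotProduct, hb, if_neg hk, smul_zero]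
        · intro h; exact absurd (Finset.mem_univ _) h
      change 0 ≤ HH V ω θ v ⬝ᵥ _
      rw [dotProduct_comm, h1]
      exact (hr v).le
    · change 0 ≤ gg V ω T (dd Δ₀) θ u ⬝ᵥ _
      have h1 : gg V ω T (dd Δ₀) θ u ⬝ᵥ (∑ j, t j • D x j +
          ∑ k : {v // v ∈ T}, r k • bb (dd Δ₀) k) = (∑ j, t j • D x j) ⬝ᵥ HH V ω θ u := by
        rw [gg_dot, add_dotProduct, hbH]
        simp only [add_dotProduct]
        have h2 : ∑ v ∈ T, (dd Δ₀ v ⬝ᵥ V u) * ((∑ j, t j • D x j) ⬝ᵥ HH V ω θ v +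
              (∑ k : {v // v ∈ T}, r k • bb (dd Δ₀) k) ⬝ᵥ HH V ω θ v) =
            ∑ k : {v // v ∈ T}, r k * (dd Δ₀ k ⬝ᵥ V u) := by
          rw [← sum_T T (fun v => (dd Δ₀ v ⬝ᵥ V u) * ((∑ j, t j • D x j) ⬝ᵥ HH V ω θ v +
              (∑ k : {v // v ∈ T}, r k • bb (dd Δ₀) k) ⬝ᵥ HH V ω θ v))]
          refine Finset.sum_congr rfl fun v _ => ?_
          rw [hDT v v.2, zero_add, sum_dotProduct, Finset.sum_eq_single v]
          · rw [smul_dotProduct, hb, if_pos rfl, smul_eq_mul, mul_one, mul_comm]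
          · intro k _ hk
            rw [smul_dotProduct, hb, if_neg hk, smul_zero]
          · intro h; exact absurd (Finset.mem_univ _) h
        rw [h2]; ring
      rw [h1]
      exact hDH u
    · change 0 ≤ E0 n ⬝ᵥ _
      rw [dotProduct_comm, add_dotProduct, sum_dotProduct, sum_dotProduct]
      have h1 : ∑ k : {v // v ∈ T}, (r k • bb (dd Δ₀) k) ⬝ᵥ E0 n = 0 := by
        refine Finset.sum_eq_zero fun k _ => ?_
        rw [smul_dotProduct, bb_E0, smul_zero]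
      rw [h1, add_zero]
      refine Finset.sum_nonneg fun j _ => ?_
      rw [smul_dotProduct, dot_E0, smul_eq_mul]
      exact mul_nonneg (ht j).le ((hD1 x j).2.2.1 0)
  · -- the region is covered
    have hE : E0 n ≠ 0 := by
      intro h
      have := congrFun h 0
      simp [E0] at this
    have hnull : ∀ᵐ x : Fin (n + 1) → ℝ, E0 n ⬝ᵥ x ≠ 0 := by
      rw [ae_iff]
      simpa using null_hyper (E0 n) hE
    filter_upwards [hnull] with x hx0 hx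
    have h0 : 0 < x 0 := by
      rw [E0_dot] at hx0
      refine lt_of_le_of_ne ?_ (Ne.symm hx0)
      have := hx (Sum.inr (Sum.inr ()))
      rw [← E0_dot x]; exact this
    obtain ⟨i, t, ht, hk⟩ := hD3 (pk V ω T (dd Δ₀) θ x) (all_constraints hP1 hΔ₀ hT hθ hx)
      (fun v hv => by
        rw [pk_dot, gg_T V ω T (dd Δ₀) (fun u hu v hv => hP1.dual Δ₀ hΔ₀ u (hT hu) v (hT hv)) θ v
          hv, zero_dotProduct]) (by rw [pk_zero]; exact h0)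
    refine ⟨i, t, fun v => x ⬝ᵥ HH V ω θ v, ht, fun v => ?_, ?_⟩
    · change 0 ≤ x ⬝ᵥ HH V ω θ v
      rw [dotProduct_comm]
      exact hx (Sum.inl v)
    · rw [← hk, sum_T T (fun v => (x ⬝ᵥ HH V ω θ v) • bb (dd Δ₀) v)]
      unfold pk
      abel

/-- the integral at `θ > 0` -/
lemma RS_eq_integral (hP1 : Poly V (fun i => 1 - 1 * ω i) 𝒱 kk dd) {T Δ₀ : Finset ι}
    (hΔ₀ : Δ₀ ∈ 𝒱) (hT : T ⊆ Δ₀) {ℓ : ℕ} (hℓ : ℓ + T.card = n + 1) {s : ℝ} {ξ : Fin n → ℝ}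
    (hs : 0 < s) (hξ : ∀ i, 0 < ξ i) {θ : ℝ} (hθ : 0 ≤ θ) (kkθ : Finset ι → Fin n → ℝ)
    (hS : StarAt V ω 𝒱 kkθ dd T ℓ s ξ θ) :
    RS V 𝒱 kkθ dd s ξ T =
      ∫ x in Reg V ω T (dd Δ₀) θ, Real.exp (-(x ⬝ᵥ yy V ω T (dd Δ₀) s ξ θ)) := by
  classical
  obtain ⟨β, _, D, hD1, hD2, hD3, hD4, hD5⟩ := hS
  have hb : ∀ u v : {v // v ∈ T}, bb (dd Δ₀) u ⬝ᵥ HH V ω θ v = if u = v then 1 else 0 := by
    intro u v
    rw [bb_dot, hP1.dual Δ₀ hΔ₀ u (hT u.2) v (hT v.2)]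
    by_cases h : u = v
    · rw [if_pos h, if_pos (congrArg Subtype.val h)]
    · rw [if_neg h, if_neg (fun h' => h (Subtype.ext h'))]
  rw [← hD5 (fun v => bb (dd Δ₀) v) hb]
  exact sum_eq_reg hP1 hΔ₀ hT hℓ hs hξ hθ D hD1 hD2 hD3 hD4

/-- the domination -/
lemma dominated (hP1 : Poly V (fun i => 1 - 1 * ω i) 𝒱 kk dd) {T Δ₀ : Finset ι}
    (hΔ₀ : Δ₀ ∈ 𝒱) (hT : T ⊆ Δ₀) {s : ℝ} {ξ : Fin n → ℝ}
    (hs : 0 < s) (hξ : ∀ i, 0 < ξ i) :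
    ∃ c : ℝ, 0 < c ∧ ∀ θ, 0 ≤ θ → (∀ i, 0 < 1 - θ * ω i) → ∀ x ∈ Reg V ω T (dd Δ₀) θ,
      c * ∑ i, |x i| ≤ x ⬝ᵥ yy V ω T (dd Δ₀) s ξ θ := by
  classical
  -- a lower bound of `(s, ξ)`
  obtain ⟨c1, hc1, hc1s, hc1ξ⟩ : ∃ c1 : ℝ, 0 < c1 ∧ c1 ≤ s ∧ ∀ i, c1 ≤ ξ i := by
    have h1 : (insert s (Finset.univ.image ξ)).Nonempty := Finset.insert_nonempty _ _
    refine ⟨(insert s (Finset.univ.image ξ)).min' h1, ?_, Finset.min'_le _ _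
      (Finset.mem_insert_self _ _), fun i => Finset.min'_le _ _ (Finset.mem_insert_of_mem
      (Finset.mem_image_of_mem _ (Finset.mem_univ i)))⟩
    have h2 := Finset.min'_mem _ h1
    rw [Finset.mem_insert, Finset.mem_image] at h2
    rcases h2 with h2 | ⟨i, -, h2⟩
    · rw [h2]; exact hs
    · rw [← h2]; exact hξ i
  set B : ℝ := 1 + ∑ v ∈ T, ∑ i, |bb (dd Δ₀) v i| with hB
  have hBv : ∀ v ∈ T, ∑ i, |bb (dd Δ₀) v i| ≤ B := by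
    intro v hv
    have := Finset.single_le_sum (f := fun v => ∑ i, |bb (dd Δ₀) v i|)
      (fun v _ => Finset.sum_nonneg fun i _ => abs_nonneg _) hv
    rw [hB]; linarith
  have hB0 : 0 < B := by
    have : 0 ≤ ∑ v ∈ T, ∑ i, |bb (dd Δ₀) v i| :=
      Finset.sum_nonneg fun v _ => Finset.sum_nonneg fun i _ => abs_nonneg _
    rw [hB]; linarith
  refine ⟨min c1 (1 / B), lt_min hc1 (by positivity), fun θ hθ hh x hx => ?_⟩
  set k := pk V ω T (dd Δ₀) θ x with hk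
  have hk0 : 0 ≤ k 0 := by
    rw [hk, pk_zero, ← E0_dot x]
    exact hx (Sum.inr (Sum.inr ()))
  have hkj : ∀ j : Fin n, 0 ≤ k j.succ := by
    intro j
    obtain ⟨u, hu, hu'⟩ := hP1.conv j
    have h1 := all_constraints hP1 hΔ₀ hT hθ hx u
    rw [← hk] at h1
    have h2 : k ⬝ᵥ HH V ω θ u = -(1 - θ * ω u) * k 0 + k j.succ * V u j := by
      unfold HH hv
      rw [dotProduct, Fin.sum_univ_succ]
      simp only [Fin.cons_zero, Fin.cons_succ]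
      rw [Finset.sum_eq_single j]
      · ring
      · intro j' _ hj'; rw [hu' j' hj', mul_zero]
      · intro h; exact absurd (Finset.mem_univ _) h
    rw [h2] at h1
    by_contra hcon
    push Not at hcon
    have h3 := mul_nonneg (hh u).le hk0
    have h4 := mul_neg_of_neg_of_pos hcon hu
    linarith
  have hki : ∀ i, 0 ≤ k i := fun i => Fin.cases hk0 hkj i
  have hr : ∀ v ∈ T, 0 ≤ x ⬝ᵥ HH V ω θ v := by
    intro v hv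
    rw [dotProduct_comm]
    exact hx (Sum.inl ⟨v, hv⟩)
  have hxk : x = k + ∑ v ∈ T, (x ⬝ᵥ HH V ω θ v) • bb (dd Δ₀) v := by
    rw [hk]; unfold pk; abel
  have h1 : ∑ i, |x i| ≤ ∑ i, k i + B * ∑ v ∈ T, x ⬝ᵥ HH V ω θ v := by
    have h2 : ∀ i, |x i| ≤ k i + ∑ v ∈ T, (x ⬝ᵥ HH V ω θ v) * |bb (dd Δ₀) v i| := by
      intro i
      have h3 : x i = k i + ∑ v ∈ T, (x ⬝ᵥ HH V ω θ v) * bb (dd Δ₀) v i := by
        conv_lhs => rw [hxk]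
        simp
      have h4 : |x i| ≤ |k i| + |∑ v ∈ T, (x ⬝ᵥ HH V ω θ v) * bb (dd Δ₀) v i| := by
        rw [h3]; exact abs_add_le _ _
      refine h4.trans (add_le_add (abs_of_nonneg (hki i)).le ?_)
      refine (Finset.abs_sum_le_sum_abs _ _).trans (Finset.sum_le_sum fun v hv => ?_)
      rw [abs_mul, abs_of_nonneg (hr v hv)]
    calc ∑ i, |x i| ≤ ∑ i, (k i + ∑ v ∈ T, (x ⬝ᵥ HH V ω θ v) * |bb (dd Δ₀) v i|) :=
          Finset.sum_le_sum fun i _ => h2 i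
      _ = ∑ i, k i + ∑ v ∈ T, (x ⬝ᵥ HH V ω θ v) * ∑ i, |bb (dd Δ₀) v i| := by
          rw [Finset.sum_add_distrib, Finset.sum_comm]
          simp only [Finset.mul_sum]
      _ ≤ ∑ i, k i + ∑ v ∈ T, (x ⬝ᵥ HH V ω θ v) * B := by
          refine add_le_add le_rfl (Finset.sum_le_sum fun v hv => ?_)
          exact mul_le_mul_of_nonneg_left (hBv v hv) (hr v hv)
      _ = ∑ i, k i + B * ∑ v ∈ T, x ⬝ᵥ HH V ω θ v := by
          rw [← Finset.sum_mul, mul_comm]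
  have h2 : c1 * ∑ i, k i ≤ k ⬝ᵥ (Fin.cons s ξ : Fin (n + 1) → ℝ) := by
    rw [Finset.mul_sum]
    refine Finset.sum_le_sum fun i _ => ?_
    rw [mul_comm]
    refine mul_le_mul_of_nonneg_left ?_ (hki i)
    refine Fin.cases ?_ (fun j => ?_) i
    · simpa using hc1s
    · simpa using hc1ξ j
  rw [dot_yy, ← hk]
  have hsum : 0 ≤ ∑ v ∈ T, x ⬝ᵥ HH V ω θ v := Finset.sum_nonneg hr
  have hksum : 0 ≤ ∑ i, k i := Finset.sum_nonneg fun i _ => hki i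
  calc min c1 (1 / B) * ∑ i, |x i|
      ≤ min c1 (1 / B) * (∑ i, k i + B * ∑ v ∈ T, x ⬝ᵥ HH V ω θ v) :=
        mul_le_mul_of_nonneg_left h1 (le_min hc1.le (by positivity))
    _ = min c1 (1 / B) * ∑ i, k i + (min c1 (1 / B) * B) * ∑ v ∈ T, x ⬝ᵥ HH V ω θ v := by ring
    _ ≤ c1 * ∑ i, k i + 1 * ∑ v ∈ T, x ⬝ᵥ HH V ω θ v := by
        refine add_le_add (mul_le_mul_of_nonneg_right (min_le_left _ _) hksum)
          (mul_le_mul_of_nonneg_right ?_ hsum)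
        calc min c1 (1 / B) * B ≤ 1 / B * B :=
              mul_le_mul_of_nonneg_right (min_le_right _ _) hB0.le
          _ = 1 := by field_simp
    _ ≤ _ := by linarith

/-- **The limit of the vertex sums.** -/
theorem RS_limit (hP : ∀ θ : ℝ, 0 < θ → θ ≤ 1 → Poly V (fun i => 1 - θ * ω i) 𝒱
      (fun Δ => θ • kk Δ + (1 - θ) • kk' Δ) dd) {T Δ₀ : Finset ι}
    (hΔ₀ : Δ₀ ∈ 𝒱) (hT : T ⊆ Δ₀) {ℓ : ℕ} (hℓ : ℓ + T.card = n + 1) {s : ℝ} {ξ : Fin n → ℝ}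
    (hs : 0 < s) (hξ : ∀ i, 0 < ξ i) (hkk' : ∀ Δ ∈ 𝒱, ∀ i, 0 ≤ kk' Δ i)
    (hS : ∀ θ : ℝ, 0 < θ → θ ≤ 1 →
      StarAt V ω 𝒱 (fun Δ => θ • kk Δ + (1 - θ) • kk' Δ) dd T ℓ s ξ θ) :
    RS V 𝒱 kk' dd s ξ T =
      ∫ x in Reg V ω T (dd Δ₀) 0, Real.exp (-(x ⬝ᵥ yy V ω T (dd Δ₀) s ξ 0)) := by
  classical
  have hP1 : Poly V (fun i => 1 - 1 * ω i) 𝒱 kk dd := by
    have := hP 1 one_pos le_rfl
    simpa using this
  obtain ⟨c, hc, hdom⟩ := dominated (ω := ω) hP1 hΔ₀ hT hs hξ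
  have hdual : ∀ u ∈ T, ∀ v ∈ T, dd Δ₀ u ⬝ᵥ V v = if u = v then 1 else 0 :=
    fun u hu v hv => hP1.dual Δ₀ hΔ₀ u (hT hu) v (hT hv)
  have hHne : ∀ v ∈ T, HH V ω 0 v ≠ 0 := by
    intro v hv h0
    have h1 := bb_dot V ω 0 (dd Δ₀) v v
    rw [h0, dotProduct_zero, hdual v hv v hv, if_pos rfl] at h1
    exact zero_ne_one h1
  have hE : E0 n ≠ 0 := by
    intro h
    have := congrFun h 0
    simp [E0] at this
  have hlimH : ∀ u i, Tendsto (fun θ => HH V ω θ u i) (𝓝[>] 0) (𝓝 (HH V ω 0 u i)) := by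
    intro u i
    have h1 : (fun θ => HH V ω θ u i) = fun θ => HH V ω 0 u i + (θ * ω u) * E0 n i := by
      funext θ
      rw [HH_eq]; rfl
    rw [h1]
    have h2 : Continuous fun θ : ℝ => HH V ω 0 u i + (θ * ω u) * E0 n i := by fun_prop
    have h3 := (h2.tendsto 0).mono_left (nhdsWithin_le_nhds (s := Set.Ioi 0))
    simpa using h3
  have hlimg : ∀ u i, Tendsto (fun θ => gg V ω T (dd Δ₀) θ u i) (𝓝[>] 0)
      (𝓝 (gg V ω T (dd Δ₀) 0 u i)) := by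
    intro u i
    unfold gg
    simp only [Pi.sub_apply, Finset.sum_apply, Pi.smul_apply, smul_eq_mul]
    exact (hlimH u i).sub (tendsto_finsetSum _ fun v _ => (hlimH v i).const_mul _)
  have hR := tendsto_region (GG V ω T (dd Δ₀)) (yy V ω T (dd Δ₀) s ξ) 1 one_pos
    (fun w i => by
      rcases w with v | u | _
      · exact hlimH v i
      · exact hlimg u i
      · exact tendsto_const_nhds)
    (fun i => by
      unfold yy zz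
      simp only [Pi.sub_apply, Pi.add_apply, Finset.sum_apply, Pi.smul_apply, smul_eq_mul]
      refine ((tendsto_const_nhds).sub ?_).add ?_
      · exact tendsto_finsetSum _ fun v _ => (hlimH v i).const_mul _
      · exact tendsto_finsetSum _ fun v _ => hlimH v i)
    (fun w => by
      rcases w with v | u | _
      · exact hHne v v.2
      · exact u.2
      · exact hE) c hc
    (fun θ h0 h1 x hx => hdom θ h0 (fun i => by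
      rcases eq_or_lt_of_le h0 with h | h
      · rw [← h]; simp
      · exact (hP θ h h1).h_pos i) x hx)
  -- the left hand side
  have hL : Tendsto (fun θ : ℝ => RS V 𝒱 (fun Δ => θ • kk Δ + (1 - θ) • kk' Δ) dd s ξ T)
      (𝓝[>] 0) (𝓝 (RS V 𝒱 kk' dd s ξ T)) := by
    unfold RS
    refine tendsto_finsetSum _ fun Δ hΔ => ?_
    have hΔ' : Δ ∈ 𝒱 := (Finset.mem_filter.1 hΔ).1
    by_cases hden : adet (fun v : {v // v ∈ Δ} => V v) * ∏ v ∈ Δ \ T, dd Δ v ⬝ᵥ ξ = 0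
    · have h0 : ∀ r : ℝ, adet (fun v : {v // v ∈ Δ} => V v) * r *
          ∏ v ∈ Δ \ T, dd Δ v ⬝ᵥ ξ = 0 := by
        intro r
        rw [mul_right_comm, hden, zero_mul]
      simp only [h0]
      exact tendsto_const_nhds
    · have hpos : 0 < s + kk' Δ ⬝ᵥ ξ := by
        have : 0 ≤ kk' Δ ⬝ᵥ ξ :=
          Finset.sum_nonneg fun i _ => mul_nonneg (hkk' Δ hΔ' i) (hξ i).le
        linarith
      have hcont : Tendsto (fun θ : ℝ => s + (θ • kk Δ + (1 - θ) • kk' Δ) ⬝ᵥ ξ) (𝓝[>] 0)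
          (𝓝 (s + kk' Δ ⬝ᵥ ξ)) := by
        have h2 : Continuous fun θ : ℝ => s + (θ • kk Δ + (1 - θ) • kk' Δ) ⬝ᵥ ξ := by
          unfold dotProduct
          simp only [Pi.add_apply, Pi.smul_apply, smul_eq_mul]
          fun_prop
        have h3 := (h2.tendsto 0).mono_left (nhdsWithin_le_nhds (s := Set.Ioi 0))
        simpa using h3
      have h4 := ((hcont.const_mul (adet (fun v : {v // v ∈ Δ} => V v))).mul_const
        (∏ v ∈ Δ \ T, dd Δ v ⬝ᵥ ξ))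
      refine (tendsto_const_nhds.div h4 ?_)
      rw [mul_right_comm]
      exact mul_ne_zero hden hpos.ne'
  refine tendsto_nhds_unique (hL.congr' ?_) hR
  have hθ1 : ∀ᶠ θ in 𝓝[>] (0 : ℝ), 0 < θ ∧ θ ≤ 1 := by
    have h1 : ∀ᶠ θ in 𝓝[>] (0 : ℝ), θ ∈ Set.Ioi (0 : ℝ) := self_mem_nhdsWithin
    have h2 : ∀ᶠ θ in 𝓝[>] (0 : ℝ), θ < 1 :=
      (eventually_lt_nhds one_pos).filter_mono nhdsWithin_le_nhds
    filter_upwards [h1, h2] with θ h1 h2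
    exact ⟨h1, h2.le⟩
  filter_upwards [hθ1] with θ hθ
  exact RS_eq_integral hP1 hΔ₀ hT hℓ hs hξ hθ.1.le _ (hS θ hθ.1 hθ.2)

omit [DecidableEq ι] [Fintype ι] in
lemma HH_zero (V : ι → Fin n → ℝ) (ω : ι → ℝ) (u : ι) : HH V ω 0 u = hv 1 (V u) := by
  unfold HH; simp

/-- **Value**: a decomposition of the dual cone of `T` in the limit. -/
theorem RS_value (hP : ∀ θ : ℝ, 0 < θ → θ ≤ 1 → Poly V (fun i => 1 - θ * ω i) 𝒱
      (fun Δ => θ • kk Δ + (1 - θ) • kk' Δ) dd) {T Δ₀ : Finset ι}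
    (hΔ₀ : Δ₀ ∈ 𝒱) (hT : T ⊆ Δ₀) {ℓ : ℕ} (hℓ : ℓ + T.card = n + 1) {s : ℝ} {ξ : Fin n → ℝ}
    (hs : 0 < s) (hξ : ∀ i, 0 < ξ i) (hkk' : ∀ Δ ∈ 𝒱, ∀ i, 0 ≤ kk' Δ i)
    (hS : ∀ θ : ℝ, 0 < θ → θ ≤ 1 →
      StarAt V ω 𝒱 (fun Δ => θ • kk Δ + (1 - θ) • kk' Δ) dd T ℓ s ξ θ)
    {β : Type} [Fintype β] (D : β → Fin ℓ → Fin (n + 1) → ℝ)
    (hD1 : ∀ x j, (∀ u, 0 ≤ D x j ⬝ᵥ hv 1 (V u)) ∧ (∀ v ∈ T, D x j ⬝ᵥ hv 1 (V v) = 0) ∧
      (∀ i, 0 ≤ D x j i) ∧ D x j ≠ 0)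
    (hD2 : ∀ x, LinearIndependent ℝ (D x))
    (hD3 : ∀ k : Fin (n + 1) → ℝ, (∀ u, 0 ≤ k ⬝ᵥ hv 1 (V u)) →
      (∀ v ∈ T, k ⬝ᵥ hv 1 (V v) = 0) → 0 < k 0 →
      ∃ x, ∃ t : Fin ℓ → ℝ, (∀ j, 0 ≤ t j) ∧ k = ∑ j, t j • D x j)
    (hD4 : ∀ x x', x ≠ x' → ∀ t t' : Fin ℓ → ℝ, (∀ j, 0 < t j) → (∀ j, 0 < t' j) →
      ∑ j, t j • D x j ≠ ∑ j, t' j • D x' j) :
    ∑ x, adet (Sum.elim (D x) (fun v : {v // v ∈ T} => bb (dd Δ₀) v)) /
        ∏ j, (D x j ⬝ᵥ (Fin.cons s ξ : Fin (n + 1) → ℝ)) = RS V 𝒱 kk' dd s ξ T := by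
  have hP1 : Poly V (fun i => 1 - 1 * ω i) 𝒱 kk dd := by
    have := hP 1 one_pos le_rfl
    simpa using this
  rw [RS_limit hP hΔ₀ hT hℓ hs hξ hkk' hS]
  refine sum_eq_reg hP1 hΔ₀ hT hℓ hs hξ le_rfl D ?_ hD2 ?_ hD4
  · simpa only [HH_zero] using hD1
  · simpa only [HH_zero] using hD3

/-- **Vanishing**: simplices which do not span their carrier. -/
theorem RS_zero (hP : ∀ θ : ℝ, 0 < θ → θ ≤ 1 → Poly V (fun i => 1 - θ * ω i) 𝒱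
      (fun Δ => θ • kk Δ + (1 - θ) • kk' Δ) dd) {T Δ₀ : Finset ι}
    (hΔ₀ : Δ₀ ∈ 𝒱) (hT : T ⊆ Δ₀) {ℓ : ℕ} (hℓ : ℓ + T.card = n + 1) {s : ℝ} {ξ : Fin n → ℝ}
    (hs : 0 < s) (hξ : ∀ i, 0 < ξ i) (hkk' : ∀ Δ ∈ 𝒱, ∀ i, 0 ≤ kk' Δ i)
    (hS : ∀ θ : ℝ, 0 < θ → θ ≤ 1 →
      StarAt V ω 𝒱 (fun Δ => θ • kk Δ + (1 - θ) • kk' Δ) dd T ℓ s ξ θ)
    (u : ι) (hu : V u ∉ Submodule.span ℝ (V '' (T : Set ι)))
    (hk : ∀ k : Fin (n + 1) → ℝ, (∀ u, 0 ≤ k ⬝ᵥ hv 1 (V u)) →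
      (∀ v ∈ T, k ⬝ᵥ hv 1 (V v) = 0) → 0 ≤ k 0 → k ⬝ᵥ hv 1 (V u) = 0) :
    RS V 𝒱 kk' dd s ξ T = 0 := by
  classical
  have hP1 : Poly V (fun i => 1 - 1 * ω i) 𝒱 kk dd := by
    have := hP 1 one_pos le_rfl
    simpa using this
  rw [RS_limit hP hΔ₀ hT hℓ hs hξ hkk' hS]
  have hgu : gg V ω T (dd Δ₀) 0 u ≠ 0 := by
    intro h0
    apply hu
    unfold gg at h0
    rw [sub_eq_zero] at h0
    have h1 : V u = ∑ v ∈ T, (dd Δ₀ v ⬝ᵥ V u) • V v := by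
      funext j
      have h2 := congrFun h0 j.succ
      simpa [HH, hv] using h2
    rw [h1]
    exact Submodule.sum_mem _ fun v hv => Submodule.smul_mem _ _
      (Submodule.subset_span ⟨v, hv, rfl⟩)
  refine setIntegral_measure_zero _ (measure_mono_null ?_ (null_hyper _ hgu))
  intro x hx
  have h1 : gg V ω T (dd Δ₀) 0 u ⬝ᵥ x = 0 := by
    rw [← pk_dot, HH_zero]
    refine hk _ (fun u' => ?_) (fun v hv => ?_) ?_
    · have := all_constraints hP1 hΔ₀ hT le_rfl hx u'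
      rwa [HH_zero] at this
    · rw [← HH_zero V ω, pk_dot, gg_T V ω T (dd Δ₀) (fun u hu v hv =>
        hP1.dual Δ₀ hΔ₀ u (hT hu) v (hT hv)) 0 v hv, zero_dotProduct]
    · rw [pk_zero, ← E0_dot x]
      exact hx (Sum.inr (Sum.inr ()))
  exact h1

end Main

end Pool.Agent.helper14.DLG
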