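import Mathlib
import Pool.Agent.helper14.DLG.Limit
import Pool.Agent.helper74.DL.P
import Pool.Agent.helper11.NS.PolyTheta
import Pool.Agent.helper61.DL.Defs4

/-! The limit of the vertex sums for a regular triangulation of the Newton boundary. -/

namespace Pool.Agent.helper14.DLG

open Finset Filter Topology MeasureTheory Matrix Pool.Agent.helper61.DL Pool.Agent.helper14.NS

variable {n : ℕ} {ι : Type} [Fintype ι] [DecidableEq ι]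

lemma starAt_of_poly {V : ι → Fin n → ℝ} {ω : ι → ℝ} {𝒱 : Finset (Finset ι)}
    {kkθ : Finset ι → Fin n → ℝ} {dd : Finset ι → ι → Fin n → ℝ} {θ : ℝ}
    (hP : Poly V (fun i => 1 - θ * ω i) 𝒱 kkθ dd) {T : Finset ι} (hT : T ∈ fcs 𝒱) {ℓ : ℕ}
    (hℓ1 : 1 ≤ ℓ) (hℓ : ℓ + T.card = n + 1) {s : ℝ} {ξ : Fin n → ℝ} (hs : 0 < s)
    (hξ : ∀ i, 0 < ξ i) (gen : ∀ Δ ∈ 𝒱, ∀ v ∈ Δ, dd Δ v ⬝ᵥ ξ ≠ 0)
    (hX : ∀ G ∈ fcs 𝒱, G.card < n → (∀ i, ∃ v ∈ G, V v i ≠ 0) →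
      ∑ Δ ∈ 𝒱 with G ⊆ Δ, 1 / (adet (fun v : {v // v ∈ Δ} => V v) *
        ∏ v ∈ Δ \ G, dd Δ v ⬝ᵥ ξ) = 0) : StarAt V ω 𝒱 kkθ dd T ℓ s ξ θ := by
  classical
  have hP' : Pool.Agent.helper74.DL.Poly V (fun i => 1 - θ * ω i) 𝒱 kkθ dd :=
    ⟨hP.card, hP.kk_le, hP.kk_eq, hP.dual, hP.act, hP.V_nonneg, hP.conv, hP.h_pos⟩
  obtain ⟨β, hβ, D, h1, h2, h3, h4, h5⟩ := Pool.Agent.helper74.DL.star_decomp V _ 𝒱 kkθ dd hP' ℓ T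
    hT hℓ1 hℓ
  refine ⟨β, hβ, D, h1, h2, h3, h4, fun b hb => ?_⟩
  have h6 := h5 s ξ hs hξ gen hX (fun u => if h : u ∈ T then b ⟨u, h⟩ else 0) (fun u hu v hv => by
    rw [dif_pos hu]
    have := hb ⟨u, hu⟩ ⟨v, hv⟩
    rw [HH] at this
    rw [this]
    by_cases h : u = v
    · rw [if_pos h, if_pos (Subtype.ext h)]
    · rw [if_neg h, if_neg (fun h' => h (congrArg Subtype.val h'))])
  have h7 : Pool.Agent.helper74.DL.RS V 𝒱 kkθ dd s ξ T = RS V 𝒱 kkθ dd s ξ T := rfl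
  rw [← h7, ← h6]
  refine Finset.sum_congr rfl fun x _ => ?_
  congr 3
  funext v
  rw [dif_pos v.2]

/-- real vectors from rational ones -/
def rr (x : Fin n → ℚ) : Fin n → ℝ := fun j => (x j : ℝ)

lemma facets_eq {V : ι → Fin n →₀ ℕ} {om : ι → ℤ} {ε : ℚ} :
    facets (qv V) (fun i => 1 - ε * om i) = maxS V om ε := by
  ext Δ
  rw [mem_maxS, Pool.Agent.helper40.DL.mem_facets]
  exact Iff.rfl

/-- **The limit theorem for a regular triangulation.** -/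
theorem tri_limit {V : ι → Fin n →₀ ℕ} {om : ι → ℤ} {ε : ℚ} (hT : Tri V om ε) :
    ∃ (kk' : Finset ι → Fin n → ℚ) (dd : Finset ι → ι → Fin n → ℚ),
      (∀ Δ ∈ maxS V om ε, (∀ i, 1 ≤ kk' Δ ⬝ᵥ qv V i) ∧ ∀ i ∈ Δ, kk' Δ ⬝ᵥ qv V i = 1) ∧
      (∀ Δ ∈ maxS V om ε, ∀ u ∈ Δ, ∀ v ∈ Δ, dd Δ u ⬝ᵥ qv V v = if u = v then 1 else 0) ∧
      ∀ T ∈ fcs (maxS V om ε), ∀ ℓ : ℕ, 1 ≤ ℓ → ℓ + T.card = n + 1 →
      ∀ (s : ℝ) (ξ : Fin n → ℝ), 0 < s → (∀ i, 0 < ξ i) →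
      (∀ Δ ∈ maxS V om ε, ∀ v ∈ Δ, rr (dd Δ v) ⬝ᵥ ξ ≠ 0) →
      (∀ G ∈ fcs (maxS V om ε), G.card < n → (∀ i, ∃ v ∈ G, rV V v i ≠ 0) →
        ∑ Δ ∈ maxS V om ε with G ⊆ Δ, 1 / (adet (fun v : {v // v ∈ Δ} => rV V v) *
          ∏ v ∈ Δ \ G, rr (dd Δ v) ⬝ᵥ ξ) = 0) →
      (∃ b : ι → Fin (n + 1) → ℝ,
        (∀ u ∈ T, ∀ v ∈ T, b u ⬝ᵥ hv 1 (rV V v) = if u = v then 1 else 0) ∧
        ∀ (β : Type) (_ : Fintype β) (D : β → Fin ℓ → Fin (n + 1) → ℝ),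
          (∀ x j, (∀ u, 0 ≤ D x j ⬝ᵥ hv 1 (rV V u)) ∧ (∀ v ∈ T, D x j ⬝ᵥ hv 1 (rV V v) = 0) ∧
            (∀ i, 0 ≤ D x j i) ∧ D x j ≠ 0) →
          (∀ x, LinearIndependent ℝ (D x)) →
          (∀ k : Fin (n + 1) → ℝ, (∀ u, 0 ≤ k ⬝ᵥ hv 1 (rV V u)) →
            (∀ v ∈ T, k ⬝ᵥ hv 1 (rV V v) = 0) → 0 < k 0 →
            ∃ x, ∃ t : Fin ℓ → ℝ, (∀ j, 0 ≤ t j) ∧ k = ∑ j, t j • D x j) →
          (∀ x x', x ≠ x' → ∀ t t' : Fin ℓ → ℝ, (∀ j, 0 < t j) → (∀ j, 0 < t' j) →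
            ∑ j, t j • D x j ≠ ∑ j, t' j • D x' j) →
          ∑ x, adet (Sum.elim (D x) (fun v : {v // v ∈ T} => b v)) /
              ∏ j, (D x j ⬝ᵥ (Fin.cons s ξ : Fin (n + 1) → ℝ)) =
            RS (rV V) (maxS V om ε) (fun Δ => rr (kk' Δ)) (fun Δ v => rr (dd Δ v)) s ξ T) ∧
      ∀ u : ι, rV V u ∉ Submodule.span ℝ (rV V '' (T : Set ι)) →
        (∀ k : Fin (n + 1) → ℝ, (∀ u, 0 ≤ k ⬝ᵥ hv 1 (rV V u)) →
          (∀ v ∈ T, k ⬝ᵥ hv 1 (rV V v) = 0) → 0 ≤ k 0 → k ⬝ᵥ hv 1 (rV V u) = 0) →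
        RS (rV V) (maxS V om ε) (fun Δ => rr (kk' Δ)) (fun Δ v => rr (dd Δ v)) s ξ T = 0 := by
  classical
  obtain ⟨kk, kk', dd, hkk', hpoly⟩ := Pool.Agent.helper11.NSR.Theta.poly_theta_om (qv V) om ε
    (fun i j => Nat.cast_nonneg _)
    (fun j => by
      obtain ⟨i, hi, hi'⟩ := hT.conv j
      exact ⟨i, by simpa [qv] using hi, fun j' hj' => by simp [qv, hi' j' hj']⟩)
    hT.simple hT.compat
  rw [facets_eq] at hkk' hpoly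
  -- small heights
  set θ₁ : ℝ := 1 / (1 + ∑ i, |(ε : ℝ) * om i|) with hθ₁
  have hsum0 : 0 ≤ ∑ i, |(ε : ℝ) * om i| := Finset.sum_nonneg fun i _ => abs_nonneg _
  have hθ₁0 : 0 < θ₁ := by rw [hθ₁]; positivity
  have hθ₁1 : θ₁ ≤ 1 := by
    rw [hθ₁, div_le_one (by positivity)]; linarith
  have hsmall : ∀ i, θ₁ * |(ε : ℝ) * om i| < 1 := by
    intro i
    have h1 : |(ε : ℝ) * om i| ≤ ∑ i, |(ε : ℝ) * om i| :=
      Finset.single_le_sum (f := fun i => |(ε : ℝ) * om i|) (fun i _ => abs_nonneg _)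
        (Finset.mem_univ i)
    rw [hθ₁, div_mul_eq_mul_div, one_mul, div_lt_one (by positivity)]
    linarith
  set ω : ι → ℝ := fun i => θ₁ * ε * om i with hω
  set kkn : Finset ι → Fin n → ℝ := fun Δ => θ₁ • rr (kk Δ) + (1 - θ₁) • rr (kk' Δ) with hkkn
  have hP : ∀ θ : ℝ, 0 < θ → θ ≤ 1 → Poly (rV V) (fun i => 1 - θ * ω i) (maxS V om ε)
      (fun Δ => θ • kkn Δ + (1 - θ) • rr (kk' Δ)) (fun Δ v => rr (dd Δ v)) := by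
    intro θ h0 h1
    have h2 := hpoly (θ * θ₁) (mul_pos h0 hθ₁0) (mul_le_one₀ h1 hθ₁0.le hθ₁1) (fun i => by
      have h3 : θ * θ₁ * ε * om i ≤ θ₁ * |(ε : ℝ) * om i| := by
        calc θ * θ₁ * ε * om i = (θ * θ₁) * ((ε : ℝ) * om i) := by ring
          _ ≤ (θ * θ₁) * |(ε : ℝ) * om i| :=
            mul_le_mul_of_nonneg_left (le_abs_self _) (mul_nonneg h0.le hθ₁0.le)
          _ ≤ θ₁ * |(ε : ℝ) * om i| := by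
            refine mul_le_mul_of_nonneg_right ?_ (abs_nonneg _)
            calc θ * θ₁ ≤ 1 * θ₁ := mul_le_mul_of_nonneg_right h1 hθ₁0.le
              _ = θ₁ := one_mul _
      linarith [hsmall i])
    have e1 : (fun i j => ((qv V i j : ℚ) : ℝ)) = rV V := by
      funext i j; simp [qv, rV]
    have e2 : (fun i => 1 - θ * θ₁ * (ε : ℝ) * (om i : ℝ)) = fun i => 1 - θ * ω i := by
      funext i; rw [hω]; ring
    have e3 : (fun Δ => (θ * θ₁) • (fun j => (kk Δ j : ℝ)) + (1 - θ * θ₁) •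
        (fun j => (kk' Δ j : ℝ))) = fun Δ => θ • kkn Δ + (1 - θ) • rr (kk' Δ) := by
      funext Δ j
      simp only [hkkn, rr, Pi.add_apply, Pi.smul_apply, smul_eq_mul]
      ring
    rw [e1, e2, e3] at h2
    exact h2
  refine ⟨kk', dd, hkk', fun Δ hΔ u hu v hv => ?_, ?_⟩
  · have h1 := (hP 1 one_pos le_rfl).dual Δ hΔ u hu v hv
    have h2 : rr (dd Δ u) ⬝ᵥ rV V v = ((dd Δ u ⬝ᵥ qv V v : ℚ) : ℝ) := by
      simp [rr, rV, qv, dotProduct]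
    rw [h2] at h1
    split_ifs at h1 ⊢
    · exact_mod_cast h1
    · exact_mod_cast h1
  intro T hTf ℓ hℓ1 hℓ s ξ hs hξ gen hX
  obtain ⟨Δ₀, hΔ₀, hTΔ⟩ : ∃ Δ₀ ∈ maxS V om ε, T ⊆ Δ₀ := by
    simpa [fcs] using hTf
  have hkk0 : ∀ Δ ∈ maxS V om ε, ∀ i, 0 ≤ rr (kk' Δ) i := by
    intro Δ hΔ i
    have := pos_of_conv hT (kk' Δ) (hkk' Δ hΔ).1 i
    unfold rr
    exact_mod_cast this.le
  have hS : ∀ θ : ℝ, 0 < θ → θ ≤ 1 → StarAt (rV V) ω (maxS V om ε)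
      (fun Δ => θ • kkn Δ + (1 - θ) • rr (kk' Δ)) (fun Δ v => rr (dd Δ v)) T ℓ s ξ θ :=
    fun θ h0 h1 => starAt_of_poly (hP θ h0 h1) hTf hℓ1 hℓ hs hξ gen hX
  refine ⟨⟨fun v => bb (fun v => rr (dd Δ₀ v)) v, fun u hu v hv => ?_, ?_⟩, ?_⟩
  · rw [← HH_zero (rV V) ω, bb_dot]
    exact (hP 1 one_pos le_rfl).dual Δ₀ hΔ₀ u (hTΔ hu) v (hTΔ hv)
  · intro β _ D h1 h2 h3 h4
    exact RS_value (kk := kkn) (kk' := fun Δ => rr (kk' Δ)) hP hΔ₀ hTΔ hℓ hs hξ hkk0 hS D h1 h2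
      h3 h4
  · intro u hu hk
    exact RS_zero (kk := kkn) (kk' := fun Δ => rr (kk' Δ)) hP hΔ₀ hTΔ hℓ hs hξ hkk0 hS u hu hk

end Pool.Agent.helper14.DLG
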