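import Mathlib
import Pool.Agent.helper14.DLG.Tri

/-! Vanishing in terms of the smallest face. -/

namespace Pool.Agent.helper14.DLG

open Finset Filter Topology MeasureTheory Matrix Pool.Agent.helper61.DL Pool.Agent.helper14.NS

variable {n : ℕ} {ι : Type} [Fintype ι] [DecidableEq ι]

omit [DecidableEq ι] [Fintype ι] in
lemma dot_hv (k : Fin (n + 1) → ℝ) (h : ℝ) (v : Fin n → ℝ) :
    k ⬝ᵥ hv h v = (fun j => k j.succ) ⬝ᵥ v - h * k 0 := by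
  unfold hv
  rw [dotProduct, Fin.sum_univ_succ]
  simp only [Fin.cons_zero, Fin.cons_succ]
  rw [dotProduct]
  ring

omit [DecidableEq ι] in
lemma mem_tau {V : ι → Fin n → ℝ} {T : Finset ι} {u : ι} : u ∈ tau V T ↔
    ∀ k : Fin n → ℝ, (∀ i, 1 ≤ k ⬝ᵥ V i) → (∀ v ∈ T, k ⬝ᵥ V v = 1) → k ⬝ᵥ V u = 1 := by
  classical
  unfold tau
  rw [Finset.mem_filter]
  simp

lemma tau_cone {V : ι → Fin n → ℝ} {T : Finset ι} {k₀ : Fin n → ℝ} (hk₀ : ∀ i, 1 ≤ k₀ ⬝ᵥ V i)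
    (hk₀' : ∀ v ∈ T, k₀ ⬝ᵥ V v = 1) {u : ι} (hu : u ∈ tau V T) (k : Fin (n + 1) → ℝ)
    (h1 : ∀ u, 0 ≤ k ⬝ᵥ hv 1 (V u)) (h2 : ∀ v ∈ T, k ⬝ᵥ hv 1 (V v) = 0) (h3 : 0 ≤ k 0) :
    k ⬝ᵥ hv 1 (V u) = 0 := by
  rw [mem_tau] at hu
  have hpos : 0 < 1 + k 0 := by linarith
  simp only [dot_hv, one_mul] at h1 h2 ⊢
  have h4 := hu ((1 / (1 + k 0)) • (k₀ + fun j => k j.succ)) (fun i => by
    rw [smul_dotProduct, add_dotProduct, smul_eq_mul, one_div, ← div_eq_inv_mul,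
      le_div_iff₀ hpos]
    have := h1 i
    have := hk₀ i
    linarith) (fun v hv => by
    rw [smul_dotProduct, add_dotProduct, smul_eq_mul, one_div, ← div_eq_inv_mul,
      div_eq_iff hpos.ne']
    have := h2 v hv
    have := hk₀' v hv
    linarith)
  have h5 := hu k₀ hk₀ hk₀'
  rw [smul_dotProduct, add_dotProduct, smul_eq_mul, one_div, ← div_eq_inv_mul,
      div_eq_iff hpos.ne'] at h4
  linarith

lemma tau_span {V : ι → Fin n → ℝ} {T : Finset ι} {k₀ : Fin n → ℝ} (hk₀ : ∀ i, 1 ≤ k₀ ⬝ᵥ V i)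
    (hk₀' : ∀ v ∈ T, k₀ ⬝ᵥ V v = 1) {u : ι} (hu : u ∈ tau V T)
    (hs : V u ∈ Submodule.span ℝ (V '' (T : Set ι))) :
    hv 1 (V u) ∈ Submodule.span ℝ ((fun v => hv 1 (V v)) '' (T : Set ι)) := by
  have hu1 := mem_tau.1 hu k₀ hk₀ hk₀'
  -- the linear map `x ↦ (-(k₀ ⬝ x), x)`
  set L : (Fin n → ℝ) →ₗ[ℝ] (Fin (n + 1) → ℝ) :=
    { toFun := fun x => Fin.cons (-(k₀ ⬝ᵥ x)) x
      map_add' := fun x y => by
        funext i
        refine Fin.cases ?_ (fun j => ?_) i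
        · simp [dotProduct_add]; ring
        · simp
      map_smul' := fun c x => by
        funext i
        refine Fin.cases ?_ (fun j => ?_) i
        · simp [dotProduct_smul]
        · simp } with hL
  have h1 : L (V u) = hv 1 (V u) := by
    change (Fin.cons (-(k₀ ⬝ᵥ V u)) (V u) : Fin (n + 1) → ℝ) = Fin.cons (-1) (V u)
    rw [hu1]
  have h2 : ∀ v ∈ T, L (V v) = hv 1 (V v) := by
    intro v hv'
    change (Fin.cons (-(k₀ ⬝ᵥ V v)) (V v) : Fin (n + 1) → ℝ) = Fin.cons (-1) (V v)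
    rw [hk₀' v hv']
  rw [← h1]
  have h3 := Submodule.mem_map_of_mem (f := L) hs
  rw [Submodule.map_span] at h3
  refine Submodule.span_mono ?_ h3
  rintro _ ⟨_, ⟨v, hv', rfl⟩, rfl⟩
  exact ⟨v, hv', (h2 v hv').symm⟩

end Pool.Agent.helper14.DLG
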